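import Pool.Agent.helper90.IV.Spec

/-!
# MP_26dbae_co, module ST1
-/

set_option autoImplicit false

open scoped BigOperators

namespace Pool.Agent.helper13.IV

open Pool.Agent.helper23.TH Pool.Agent.KS Pool.Agent.IV

noncomputable section

open Classical

/-- parity function on the tree -/
theorem ST1_par {I : Type} (T : Tr I) (n : ℕ) :
    ∃ p : I → Bool, ∀ i j, T.rk i < n → T.par i = some j → p i = !(p j) := by
  induction n with
  | zero => exact ⟨fun _ => true, fun i j h => absurd h (Nat.not_lt_zero _)⟩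
  | succ n ih =>
    obtain ⟨p, hp⟩ := ih
    refine ⟨fun i => if T.rk i < n then p i else match T.par i with
      | none => true
      | some j => !(p j), ?_⟩
    intro i j hi hij
    have hlt := T.lt i j hij
    have hj : T.rk j < n := by omega
    by_cases h : T.rk i < n
    · simp only [h, hj, if_true]
      exact hp i j h hij
    · simp only [h, hj, if_true, if_false, hij]

theorem ST1_ne {I : Type} [Fintype I] (T : Tr I) {V : Type} [Fintype V] (A : V → V → Prop)
    (gh : T.R → Option I) (hs : ∀ a b, A a b → A b a) (hgv : GV T gh) (a b : V) (hab : A a b) :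
    (Hm T A gh).Nonempty := by
  obtain ⟨p, hp⟩ := ST1_par T (Finset.univ.sup T.rk + 1)
  have hp' : ∀ i j, T.par i = some j → p i = !(p j) := fun i j h =>
    hp i j (Nat.lt_succ_of_le (Finset.le_sup (Finset.mem_univ i))) h
  refine ⟨(fun i => if p i then a else b, fun r => if p r.1 then b else a), ?_⟩
  unfold Hm
  rw [Finset.mem_filter]
  refine ⟨Finset.mem_univ _, ⟨?_, ?_⟩, ?_⟩
  · intro i j hij
    have h := hp' i j hij
    cases hj : p j <;> rw [hj] at h <;> simp [h, hj, hab, hs a b hab]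
  · intro r
    cases hr : p r.1 <;> simp [hr, hab, hs a b hab]
  · intro r w hw
    rcases hgv r w hw with h | h
    · have h1 := hp' _ _ h
      cases hj : p w <;> rw [hj] at h1 <;> simp [h1, hj]
    · have h1 := hp' _ _ h
      cases hj : p r.1 <;> rw [hj] at h1 <;> simp [h1, hj]

/-- one fibre -/
theorem ST1_key {I : Type} [Fintype I] (T : Tr I) (s Ch P' P P₁ C : ℕ) {V K : Type} [Fintype V]
    (A : V → V → Prop) (lam : Fin 2 → V → V → K) (gh : T.R → Option I) (W : Finset I) (G : Finset ((I → V) × (T.R → V)))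
    (hC : ∀ (y : T.R → V) (F : Finset (I → V)),
      (∀ x ∈ F, (x, y) ∈ Hm T A gh ∧ Nice T lam gh x y ∧ Rich T A lam gh W P x y ∧ NH T A s Ch gh x y ∧
        NCF T A lam P₁ W x y) →
      (∀ x ∈ F, ∀ x' ∈ F, ∀ i ∈ W, x i = x' i) → C < F.card →
      ∃ B : Finset I, W ⊆ B ∧ B ≠ Finset.univ ∧ (∀ w ∈ W ∪ Bᶜ, T.ro w + T.dO (W ∪ Bᶜ) w + 1 ≤ s) ∧
        F.card ≤ C * (F.filter fun x => Rich T A lam gh (W ∪ Bᶜ) P' x y).card)
    (hG : ∀ f ∈ G, f ∈ Hm T A gh ∧ Nice T lam gh f.1 f.2 ∧ Rich T A lam gh W P f.1 f.2 ∧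
      NH T A s Ch gh f.1 f.2 ∧ NCF T A lam P₁ W f.1 f.2)
    (b : ({w // w ∈ W} → V) × (T.R → V)) (hb : C < (G.filter fun f => bs W f = b).card) :
    ∃ B : Finset I, W ⊆ B ∧ B ≠ Finset.univ ∧ (∀ w ∈ W ∪ Bᶜ, T.ro w + T.dO (W ∪ Bᶜ) w + 1 ≤ s) ∧
      (G.filter fun f => bs W f = b).card ≤
        C * ((G.filter fun f => bs W f = b).filter fun f => Rich T A lam gh (W ∪ Bᶜ) P' f.1 f.2).card := by
  set S := G.filter fun f => bs W f = b with hS
  have hy : ∀ f ∈ S, f.2 = b.2 := by
    intro f hf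
    exact congrArg Prod.snd (Finset.mem_filter.1 hf).2
  have hcard : (S.image Prod.fst).card = S.card := by
    refine Finset.card_image_of_injOn fun f hf f' hf' h => ?_
    exact Prod.ext h ((hy f hf).trans (hy f' hf').symm)
  obtain ⟨B, h1, h2, h3, h4⟩ := hC b.2 (S.image Prod.fst) (by
      intro x hx
      obtain ⟨f, hf, rfl⟩ := Finset.mem_image.1 hx
      have h := hG f (Finset.mem_filter.1 hf).1
      rw [← hy f hf]
      exact h) (by
      intro x hx x' hx' i hi
      obtain ⟨f, hf, rfl⟩ := Finset.mem_image.1 hx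
      obtain ⟨f', hf', rfl⟩ := Finset.mem_image.1 hx'
      have e1 : (bs W f).1 ⟨i, hi⟩ = (bs W f').1 ⟨i, hi⟩ := by
        rw [(Finset.mem_filter.1 hf).2, (Finset.mem_filter.1 hf').2]
      exact e1) (by rw [hcard]; exact hb)
  refine ⟨B, h1, h2, h3, ?_⟩
  rw [hcard] at h4
  refine h4.trans (Nat.mul_le_mul_left C ?_)
  have hsub : ((S.image Prod.fst).filter fun x => Rich T A lam gh (W ∪ Bᶜ) P' x b.2) ⊆
      (S.filter fun f => Rich T A lam gh (W ∪ Bᶜ) P' f.1 f.2).image Prod.fst := by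
    intro x hx
    obtain ⟨hx1, hx2⟩ := Finset.mem_filter.1 hx
    obtain ⟨f, hf, rfl⟩ := Finset.mem_image.1 hx1
    refine Finset.mem_image.2 ⟨f, Finset.mem_filter.2 ⟨hf, ?_⟩, rfl⟩
    rw [hy f hf]
    exact hx2
  exact (Finset.card_le_card hsub).trans Finset.card_image_le

theorem ST1 (hLOC : LOC_stmt) (hFIB : FIB_stmt) (hHVY : HVY_stmt) (hNC : NC_stmt) : ST1_stmt := by
  intro I _ T s Ch P' κ KE hT hk
  obtain ⟨P, hP⟩ := hLOC I T s Ch P'
  refine ⟨P, fun η hη => ?_⟩
  obtain ⟨P₁, hP₁⟩ := hNC I T s κ KE (η / 4) hT hk (by positivity)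
  obtain ⟨ε₁, hε₁, hH⟩ := hHVY I T s κ (η / 4) hk (by positivity)
  obtain ⟨C, hC⟩ := hP P₁
  obtain ⟨K₁, hK⟩ := hFIB I T s C κ (η / 2) hk (by positivity)
  refine ⟨η / (4 * (C + 1) * 2 ^ (Fintype.card I)), ε₁, K₁, by positivity, hε₁, ?_⟩
  intro V K _ A lam d ε K₀ hE hε hK₀ gh W hW hSt
  obtain ⟨hGI, hcard⟩ := hSt
  have h1 := hH V K A lam Ch d KE ε K₀ hE hε gh hGI.gv
  have h2 := hP₁ V K A lam Ch d ε K₀ hE gh W hGI
  set G := (Hm T A gh).filter fun f => Nice T lam gh f.1 f.2 ∧ Rich T A lam gh W P f.1 f.2 ∧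
    NH T A s Ch gh f.1 f.2 ∧ NCF T A lam P₁ W f.1 f.2 with hGdef
  have hGmem : ∀ f ∈ G, f ∈ Hm T A gh ∧ Nice T lam gh f.1 f.2 ∧ Rich T A lam gh W P f.1 f.2 ∧
      NH T A s Ch gh f.1 f.2 ∧ NCF T A lam P₁ W f.1 f.2 := fun f hf => Finset.mem_filter.1 hf
  have hGc : η / 2 * (Hm T A gh).card ≤ (G.card : ℝ) := by
    have hsub : ((Hm T A gh).filter fun f => Nice T lam gh f.1 f.2 ∧ Rich T A lam gh W P f.1 f.2) ⊆
        (G ∪ (Hm T A gh).filter fun f => ¬ NH T A s Ch gh f.1 f.2) ∪
          (Hm T A gh).filter fun f => ¬ NCF T A lam P₁ W f.1 f.2 := by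
      intro f hf
      obtain ⟨hf1, hf2, hf3⟩ := Finset.mem_filter.1 hf
      by_cases hnh : NH T A s Ch gh f.1 f.2
      · by_cases hncf : NCF T A lam P₁ W f.1 f.2
        · exact Finset.mem_union_left _ (Finset.mem_union_left _
            (Finset.mem_filter.2 ⟨hf1, hf2, hf3, hnh, hncf⟩))
        · exact Finset.mem_union_right _ (Finset.mem_filter.2 ⟨hf1, hncf⟩)
      · exact Finset.mem_union_left _ (Finset.mem_union_right _ (Finset.mem_filter.2 ⟨hf1, hnh⟩))
    have h3 := (Finset.card_le_card hsub).trans ((Finset.card_union_le _ _).trans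
      (Nat.add_le_add_right (Finset.card_union_le _ _) _))
    have h4 : (((Hm T A gh).filter fun f => Nice T lam gh f.1 f.2 ∧ Rich T A lam gh W P f.1 f.2).card : ℝ) ≤
        (G.card : ℝ) + (((Hm T A gh).filter fun f => ¬ NH T A s Ch gh f.1 f.2).card : ℝ) +
          (((Hm T A gh).filter fun f => ¬ NCF T A lam P₁ W f.1 f.2).card : ℝ) := by
      exact_mod_cast h3
    linarith
  have h3 := hK V K A lam Ch d KE ε K₀ hE hK₀ gh W hGI hW G (Finset.filter_subset _ _) hGc
  set G' := G.filter fun f => C < (G.filter fun f' => bs W f' = bs W f).card with hG'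
  -- `Hm` is not empty
  have hne : (Hm T A gh).Nonempty := by
    obtain ⟨v⟩ : Nonempty V := Fintype.card_pos_iff.1 hE.pos
    have hd : (0 : ℝ) < deg A v := lt_of_lt_of_le (by linarith [hE.d1]) (hE.lo v)
    have hd' : 0 < deg A v := by exact_mod_cast hd
    have hex : ∃ w, A v w := by
      by_contra hcon
      push Not at hcon
      unfold deg at hd'
      simp [hcon] at hd'
    obtain ⟨w, hw⟩ := hex
    exact ST1_ne T A gh hE.pr.symm hGI.gv v w hw
  have hpos : (0 : ℝ) < (Hm T A gh).card := by exact_mod_cast hne.card_pos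
  have hG'pos : 0 < G'.card := by
    have : (0 : ℝ) < G'.card := lt_of_lt_of_le (by positivity) h3
    exact_mod_cast this
  have key := fun b hb => ST1_key T s Ch P' P P₁ C A lam gh W G
    (fun y F hF1 hF2 hF3 => hC V K A lam gh W y F hE.pr hGI hW hF1 hF2 hF3) hGmem b hb
  choose! Bf hBf using key
  -- pigeonhole
  obtain ⟨B, hB⟩ : ∃ B : Finset I, G'.card ≤ 2 ^ (Fintype.card I) * (G'.filter fun f => Bf (bs W f) = B).card := by
    by_contra hcon
    push Not at hcon
    have e1 : G'.card = ∑ B : Finset I, (G'.filter fun f => Bf (bs W f) = B).card :=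
      Finset.card_eq_sum_card_fiberwise fun f _ => Finset.mem_coe.2 (Finset.mem_univ _)
    have e2 : ∑ B : Finset I, 2 ^ (Fintype.card I) * (G'.filter fun f => Bf (bs W f) = B).card <
        ∑ _B : Finset I, G'.card :=
      Finset.sum_lt_sum_of_nonempty Finset.univ_nonempty fun B _ => hcon B
    rw [← Finset.mul_sum, ← e1, Finset.sum_const, Finset.card_univ, Fintype.card_finset, smul_eq_mul] at e2
    exact lt_irrefl _ e2
  set S := G'.filter fun f => Bf (bs W f) = B with hS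
  have hSpos : 0 < S.card := by
    rcases Nat.eq_zero_or_pos S.card with h | h
    · rw [h, mul_zero] at hB
      omega
    · exact h
  obtain ⟨f₁, hf₁⟩ := Finset.card_pos.1 hSpos
  obtain ⟨hf₁', hf₁B⟩ := Finset.mem_filter.1 hf₁
  obtain ⟨p1, p2, p3, -⟩ := hBf (bs W f₁) (Finset.mem_filter.1 hf₁').2
  rw [hf₁B] at p1 p2 p3
  refine ⟨B, p1, p2, p3, ?_⟩
  set T0 := (Hm T A gh).filter fun f => Nice T lam gh f.1 f.2 ∧ Rich T A lam gh (W ∪ Bᶜ) P' f.1 f.2 with hT0
  have hST : S.card ≤ C * T0.card := by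
    have e1 : S.card = ∑ b ∈ S.image (bs W), (S.filter fun f => bs W f = b).card :=
      Finset.card_eq_sum_card_image _ _
    have e2 : ∑ b ∈ S.image (bs W), (T0.filter fun f => bs W f = b).card ≤ T0.card := by
      have e3 : ∑ b ∈ S.image (bs W), (T0.filter fun f => bs W f = b).card =
          (T0.filter fun f => bs W f ∈ S.image (bs W)).card := by
        rw [Finset.card_eq_sum_card_fiberwise (s := T0.filter fun f => bs W f ∈ S.image (bs W)) (f := bs W)
          (t := S.image (bs W)) (fun f hf => Finset.mem_coe.2 (Finset.mem_filter.1 (Finset.mem_coe.1 hf)).2)]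
        refine Finset.sum_congr rfl fun b hb => ?_
        refine congrArg Finset.card (Finset.ext fun f => ?_)
        constructor
        · intro h
          obtain ⟨a1, a2⟩ := Finset.mem_filter.1 h
          exact Finset.mem_filter.2 ⟨Finset.mem_filter.2 ⟨a1, by rw [a2]; exact hb⟩, a2⟩
        · intro h
          obtain ⟨a1, a2⟩ := Finset.mem_filter.1 h
          exact Finset.mem_filter.2 ⟨(Finset.mem_filter.1 a1).1, a2⟩
      rw [e3]
      exact Finset.card_le_card (Finset.filter_subset _ _)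
    rw [e1]
    refine le_trans ?_ (Nat.mul_le_mul_left C e2)
    rw [Finset.mul_sum]
    refine Finset.sum_le_sum fun b hb => ?_
    obtain ⟨f, hf, rfl⟩ := Finset.mem_image.1 hb
    obtain ⟨hf', hfB⟩ := Finset.mem_filter.1 hf
    obtain ⟨-, -, -, q4⟩ := hBf (bs W f) (Finset.mem_filter.1 hf').2
    rw [hfB] at q4
    have s1 : (S.filter fun f' => bs W f' = bs W f) ⊆ G.filter fun f' => bs W f' = bs W f := by
      intro g hg
      obtain ⟨hg1, hg2⟩ := Finset.mem_filter.1 hg
      exact Finset.mem_filter.2 ⟨(Finset.mem_filter.1 (Finset.mem_filter.1 hg1).1).1, hg2⟩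
    refine (Finset.card_le_card s1).trans (q4.trans (Nat.mul_le_mul_left C (Finset.card_le_card ?_)))
    intro g hg
    obtain ⟨hg1, hg2⟩ := Finset.mem_filter.1 hg
    obtain ⟨hg3, hg4⟩ := Finset.mem_filter.1 hg1
    have hg5 := hGmem g hg3
    exact Finset.mem_filter.2 ⟨Finset.mem_filter.2 ⟨hg5.1, hg5.2.1, hg2⟩, hg4⟩
  have hfin : (G'.card : ℝ) ≤ 2 ^ (Fintype.card I) * ((C + 1) * T0.card) := by
    have : G'.card ≤ 2 ^ (Fintype.card I) * ((C + 1) * T0.card) :=
      hB.trans (Nat.mul_le_mul_left _ (hST.trans (Nat.mul_le_mul_right _ (Nat.le_succ C))))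
    exact_mod_cast this
  have hfin2 : η / 4 * (Hm T A gh).card ≤ 2 ^ (Fintype.card I) * ((C + 1) * T0.card) := by
    have e : η / 4 * ((Hm T A gh).card : ℝ) = η / 2 / 2 * (Hm T A gh).card := by ring
    rw [e]
    exact h3.trans hfin
  rw [div_mul_eq_mul_div, div_le_iff₀ (by positivity)]
  calc η * ((Hm T A gh).card : ℝ) = 4 * (η / 4 * (Hm T A gh).card) := by ring
    _ ≤ 4 * (2 ^ (Fintype.card I) * ((C + 1) * T0.card)) := by linarith
    _ = (T0.card : ℝ) * (4 * (C + 1) * 2 ^ (Fintype.card I)) := by ring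

end

end Pool.Agent.helper13.IV
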